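import Mathlib
import Pool.Agent.H87.MBShr

namespace Pool.Agent.Results.MP_11f428_an.No

open Filter Topology

/-- If the functionals of an M-basis form a boundedly complete M-basis of their closed span,
then the M-basis is shrinking. -/
theorem result {𝕜 E : Type*} [RCLike 𝕜] [NormedAddCommGroup E] [NormedSpace 𝕜 E] [CompleteSpace E]
    (x : ℕ → E) (f : ℕ → StrongDual 𝕜 E)
    (hdense : Dense (Submodule.span 𝕜 (Set.range x) : Set E))
    (_hbi : ∀ i j, f i (x j) = if i = j then 1 else 0)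
    (htot : ∀ z : E, (∀ n, f n z = 0) → z = 0)
    (hbc : ∀ (y : ℕ → StrongDual 𝕜 E) (α : ℕ → 𝕜),
      (∀ j, y j ∈ closure (Submodule.span 𝕜 (Set.range f) : Set (StrongDual 𝕜 E))) →
      (∃ C : ℝ, ∀ j, ‖y j‖ ≤ C) → (∀ n, Tendsto (fun j => y j (x n)) atTop (𝓝 (α n))) →
      ∃ g ∈ closure (Submodule.span 𝕜 (Set.range f) : Set (StrongDual 𝕜 E)), ∀ n, g (x n) = α n) :
    closure (Submodule.span 𝕜 (Set.range f) : Set (StrongDual 𝕜 E)) = Set.univ := by
  refine Set.eq_univ_of_forall fun g => ?_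
  obtain ⟨v, hv⟩ := Pool.Agent.H87.MBShr.surj
    (V := (Submodule.span 𝕜 (Set.range f)).topologicalClosure)
    (Submodule.span 𝕜 (Set.range f)).topologicalClosure.subtypeL (fun _ => rfl) x hdense
    (fun z hz => htot z fun n => hz ⟨f n, Submodule.le_topologicalClosure _
      (Submodule.subset_span ⟨n, rfl⟩)⟩) (fun y α h1 h2 => by
      obtain ⟨g, h3, h4⟩ := hbc (fun j => (y j).1) α (fun j => (y j).2) ⟨1, h1⟩ h2
      exact ⟨⟨g, h3⟩, h4⟩) g
  exact hv ▸ v.2

end Pool.Agent.Results.MP_11f428_an.No
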